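import Pool.Agent.V5helper87.NF.Df
import Pool.Agent.Y116.UV.Defs

/-!
# Cohomology with compact support of schemes over local fields and its weight filtration: definitions

`T X i j` is the graded piece `Gr^W_j H_c^i(X_{\bar K}, Ω)` of the weight filtration of the cohomology
with compact support of the scheme `X` of finite type over the local field `K` of characteristic zero
(`Ω` the algebraic closure of `ℚ_ℓ`, `ℓ` different from the residue characteristic), with the action of a
geometric Frobenius element and the monodromy operator.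
-/

set_option autoImplicit false

open CategoryTheory AlgebraicGeometry IsLocalRing Pool.Agent.Y116.UV Pool.Agent.V5helper87.NF

universe u v

namespace Pool.Agent.V5helper91.MWT

variable {Ω : Type u} [Field Ω]

/-- Isomorphism of representations. -/
def Same (A B : Rep.{u, v} Ω) : Prop := ∃ e : A.V ≃ₗ[Ω] B.V, IsHom A B e.toLinearMap

/-- Exactness of `A → B → C`. -/
structure Ex {A B C : Rep.{u, v} Ω} (f : A.V →ₗ[Ω] B.V) (g : B.V →ₗ[Ω] C.V) : Prop where
  left : IsHom A B f
  right : IsHom B C g
  exact : Function.Exact f g

/-- The exact sequences `⋯ → Gr_j H_c^i(U) → Gr_j H_c^i(X) → Gr_j H_c^i(Z) → Gr_j H_c^(i+1)(U) → ⋯`. -/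
def Les {S : Type 1} (T : S → ℤ → ℤ → Rep.{u, v} Ω) (Z X U : S) : Prop :=
  ∀ j : ℤ, ∃ (a : ∀ i, (T U i j).V →ₗ[Ω] (T X i j).V) (b : ∀ i, (T X i j).V →ₗ[Ω] (T Z i j).V)
    (d : ∀ i, (T Z i j).V →ₗ[Ω] (T U (i + 1) j).V),
    ∀ i, Ex (a i) (b i) ∧ Ex (b i) (d i) ∧ Ex (d i) (a (i + 1))

/-- The properties of the graded pieces `T X i j = Gr^W_j H_c^i` that are used, for separated schemes `X`
of finite type over the ring `R`; `q` is the number of elements of the residue field.

* `finite`, `isLocal`, `iso`, `empty`: the spaces are finite-dimensional, `N Φ = q Φ N`, isomorphic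
  schemes have isomorphic representations, the cohomology of the empty scheme is zero;
* `localization`: the exact sequences for a closed subscheme `Z` of `X` and its complement `U` (the
  weight filtration is strictly compatible with the maps);
* `bundle`: for the affine bundle `Spec B[w_1, …, w_m] / (∑ f_l w_l - 1) → U` with fibre `𝔸^(m-1)`, `U` the
  complement of `f = 0` in `Spec B`, the cohomology of the total space is the one of `U` with a shift by
  `2 m - 2` and a Tate twist;
* `torus`: as `H_c^1(𝔾_m)` is of weight zero, `H_c^i(X)` is a direct summand of `H_c^(i+1)(X × 𝔾_m)`;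
* `point`: the cohomology of the spectrum of `R` is mw pure (it is the trivial representation). -/
structure IsCohomology [CharZero Ω] {R : Type} [CommRing R] (q : ℕ)
    (T : Sch R → ℤ → ℤ → Rep.{u, v} Ω) : Prop where
  finite : ∀ X : Sch R, FT True X → ∀ i j, FiniteDimensional Ω (T X i j).V
  isLocal : ∀ X : Sch R, FT True X → ∀ i j, (T X i j).IsLocal q
  iso : ∀ {X Y : Sch R}, FT True X → Nonempty (X ≅ Y) → ∀ i j, Same (T X i j) (T Y i j)
  empty : ∀ X : Sch R, IsEmpty X.left → ∀ i j, Subsingleton (T X i j).V
  localization : ∀ {Z X U : Sch R} (i : Z ⟶ X) (j : U ⟶ X), FT True X → IsTriple i j →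
    Les T Z X U
  bundle : ∀ (B : Type) [CommRing B] [Algebra R B] [Algebra.FiniteType R B] (m : ℕ)
    (f : Fin m → B) (U : Sch R) (j : U ⟶ aff R B), IsOpenImmersion j.left →
    Set.range j.left = {x : PrimeSpectrum B | ∃ l, f l ∉ x.asIdeal} →
    ∀ i r : ℤ, Same (T (aff R (Jou f)) (i + 2 * ((m - 1 : ℕ) : ℤ)) (r + 2 * ((m - 1 : ℕ) : ℤ)))
      (twist q (m - 1) (T U i r))
  torus : ∀ (B : Type) [CommRing B] [Algebra R B] [Algebra.FiniteType R B] (i r : ℤ),
    IsSummand (T (aff R B) i r) (T (aff R (LaurentPolynomial B)) (i + 1) r)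
  point : ∀ i j : ℤ, (T (aff R R) i j).IsPure q j

/-- All the graded pieces of the weight filtration are mw pure of their weight. -/
def MW [CharZero Ω] {R : Type} [CommRing R] (q : ℕ) (T : Sch R → ℤ → ℤ → Rep.{u, v} Ω)
    (X : Sch R) : Prop :=
  ∀ i j : ℤ, (T X i j).IsPure q j

/-- The representation with the operators `Φ ^ f` and `e N`: up to the choice of the Frobenius element,
the restriction to an extension of local fields with ramification index `e` and residue degree `f`. -/
def restrict (f e : ℕ) (A : Rep.{u, v} Ω) : Rep.{u, v} Ω where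
  V := A.V
  Φ := A.Φ ^ f
  N := (e : Ω) • A.N

/-- The data: the graded pieces `H L X i j = Gr^W_j H_c^i(X_{\bar K}, Ω)` for the schemes `X` over the
local field `K` (the field of fractions of `L`), and `A p X i j`, the same for the scheme `X_{ℚ_p}` over
`ℚ_p`, for schemes `X` over the ring of integers. -/
structure Theory (Ω : Type u) [Field Ω] where
  H : ∀ L : LocalField, Sch L.K → ℤ → ℤ → Rep.{u, v} Ω
  A : ℕ → Sch ℤ → ℤ → ℤ → Rep.{u, v} Ω

/-- The known properties of the `ℓ`-adic cohomology with compact support and of its weight filtration,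
over local fields of characteristic zero and residue characteristic different from `ℓ`.

* `field`, `arith`: the properties above, for schemes over local fields and for arithmetic schemes;
* `proper`: `H^i` of a smooth and proper scheme is of weight `i` (Deligne);
* `surfaces`: the monodromy-weight conjecture for smooth and proper schemes of dimension at most two
  (Rapoport, Zink, de Jong);
* `compactification`: smooth schemes have smooth compactifications (Nagata, Hironaka);
* `generic`: the cohomology of `X_{ℚ_p}` for an arithmetic scheme `X` (here `L` is the ring `ℤ_p`);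
* `descent`: let `X` be smooth and proper over `K`, and `i` an integer. By spreading out and by the local
  constancy of étale cohomology in families over local fields (Krasner, Kisin) `H^i(X)` is isomorphic to
  the cohomology of a smooth proper scheme over a number field `F` with completion `K`. Restriction of
  scalars: regarded as a scheme over the rational numbers it has a model `Y` of finite type over the ring
  of integers, and `H^i(X)` is a direct summand of the restriction `G` of the representation `H^i(Y)` of
  the Galois group of `ℚ_p` to the Galois group of `K`; the geometric Frobenius element of `K` and the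
  `f`-th power of the one of `ℚ_p` are comparable. -/
structure IsTheory [CharZero Ω] (ℓ : ℕ) (T : Theory.{u, v} Ω) : Prop where
  field : ∀ L : LocalField, CharZero L.K → L.p ≠ ℓ → IsCohomology L.q (T.H L)
  arith : ∀ p : ℕ, p.Prime → p ≠ ℓ → IsCohomology p (T.A p)
  proper : ∀ L : LocalField, CharZero L.K → L.p ≠ ℓ → ∀ X : Sch L.K, SmoothProper X.hom →
    ∀ i j : ℤ, i ≠ j → Subsingleton (T.H L X i j).V
  surfaces : ∀ L : LocalField, CharZero L.K → L.p ≠ ℓ → ∀ X : Sch L.K, SmoothProper X.hom →
    topologicalKrullDim X.left ≤ 2 → ∀ i : ℤ, (T.H L X i i).IsPure L.q i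
  compactification : ∀ L : LocalField, CharZero L.K → ∀ X : Sch L.K, FT True X → Smooth X.hom →
    ∀ n : ℕ, topologicalKrullDim X.left ≤ n →
    ∃ (Z Y : Sch L.K) (i : Z ⟶ Y) (j : X ⟶ Y), SmoothProper Y.hom ∧ IsTriple i j ∧
      topologicalKrullDim Y.left ≤ n ∧ topologicalKrullDim Z.left < n
  generic : ∀ p : ℕ, p.Prime → p ≠ ℓ → ∃ L : LocalField, CharZero L.K ∧ L.p = p ∧ L.q = p ∧
    ∀ X : Sch ℤ, FT True X → ∃ Y : Sch L.K, FT True Y ∧ ∀ i j : ℤ, Same (T.A p X i j) (T.H L Y i j)
  descent : ∀ L : LocalField, CharZero L.K → L.p ≠ ℓ → ∀ X : Sch L.K, SmoothProper X.hom →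
    ∀ i : ℤ, ∃ (f e : ℕ) (Y : Sch ℤ) (G : Rep.{u, v} Ω), 0 < f ∧ 0 < e ∧ L.q = L.p ^ f ∧
      FT True Y ∧ G.IsLocal L.q ∧ FiniteDimensional Ω G.V ∧ IsSummand (T.H L X i i) G ∧
      PowComparable L.q G (restrict f e (T.A L.p Y i i))

end Pool.Agent.V5helper91.MWT
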